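import Pool.Agent.H414.LT.Che
import Pool.Agent.H414.LT.Uch
import Pool.Agent.H414.DF.Eng
import Pool.Agent.H414.DF.Asg
import Pool.Agent.H414.CA.Mean
import Pool.Agent.H414.EX.Maj
import Pool.Agent.H414.EX.Cnv
import Pool.Agent.H414.EX.Apx
import Pool.Agent.H414.EX.Conv
import Pool.Agent.H414.EX.Tel
import Pool.Agent.H414.EX.Lin
import Pool.Agent.H414.EX.Lint
import Pool.Agent.H414.EX.Upr
import Pool.Agent.H414.EX.Rho
import Pool.Agent.H414.EX.Mu
import Pool.Agent.H414.EX.Ker
import Pool.Agent.H414.EX.Bias
import Pool.Agent.H414.EX.Mas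
import Pool.Agent.H414.EX.Pos
import Pool.Agent.H414.EX.Tot
import Pool.Agent.H414.EX.Cnt
import Pool.Agent.H414.EX.Sq
import Pool.Agent.H414.EX.Sel
import Pool.Agent.H414.EX.Nub
import Pool.Agent.H414.EX.Modif
import Pool.Agent.H414.EX.Sharp

/-!
# The Sato-Tate law for products of `g` elliptic curves: the exponent `1 / 4` for every `g`

Let `E_1, …, E_g` be elliptic curves over `ℚ` without complex multiplication, no two of them isogenous over an
algebraic closure. The Sato-Tate group of `A = E_1 × ⋯ × E_g` is `SU(2)^g`, and the class of the Frobenius at `p` is given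
by the normalised traces `s p i = a_p(E_i) / √p ∈ [-2, 2]`, or by the angles `θ p i = arccos (s p i / 2)`. The irreducible
representations are the `Sym^(κ 0) ⊗ ⋯ ⊗ Sym^(κ (g - 1))`, of degree `dg κ = ∏ (κ i + 1)`, with the characters `ch κ`, and
the Riemann hypothesis for their L-functions gives

`∑_{p ≤ x} ch κ (s p) = O_ε(dg κ · x ^ (1 / 2 + ε))`, uniformly in `κ ≠ 0`    (`HasBound g (fun _ _ => 1) s`).

(1) These bounds imply, for any system of classes, that the number of the `p ≤ x` with the angles in a box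
`∏ [α i, β i]` is `μ(box) π(x) + O_ε(x ^ (3 / 4 + ε))`, uniformly in the box, `μ` the Sato-Tate measure. The exponent does
not depend on `g`. (Known for `g = 1`; for `g = 2` the exponent `5 / 6` was obtained by Bucur and Kedlaya, and the
inequality of Erdős, Turán and Koksma gives `1 - 1 / (2 g + 2)`.)
(2) The exponent `3 / 4` is the exact strength of these bounds for every `g`, even if they are known with arbitrary twists:
for all `|c i p| ≤ 1`, `δ > 0` and all numbers `f k t`, `t ∈ ℤ^g`, with `∑_{|t i| ≤ k} f k t ≤ 2 ^ (k (3 / 4 - δ))` there are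
integers `a p i` with `(a p i) ^ 2 ≤ 4 p` whose normalised traces satisfy the bounds with the twists `c i`, such that for
all large `k` and all `|t i| ≤ k` exactly `f k t` of the primes `2 ^ k < p ≤ 2 ^ (k + 1)` have `a p = t`.
With `f k 0 = ⌊2 ^ (k (3 / 4 - δ))⌋` the box which consists of the point `(π / 2, …, π / 2)`, of measure zero, contains
this number of classes. So the Riemann hypothesis for all the L-functions of `A` gives the same bound `x ^ (3 / 4 + ε)` for
the number of the `p ≤ x` with `a_p(E_1) = ⋯ = a_p(E_g) = 0` as for one curve, and no better one, although this number is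
expected to be about `log log x` for `g = 2` and bounded for `g ≥ 3`.

Proof. (1) Let `P_a` be approximations of the indicator function of an interval by polynomials of degree `C 2 ^ a`. In the
product over the coordinates `∏ (P_0 + (P_1 - P_0) + ⋯)` only the terms with `∑ a i ≤ A`, `2 ^ A = x ^ (1 / 4)`, are used; the
rest is bounded, coordinate by coordinate, by nonnegative polynomials of total degree `≤ C 2 ^ A`. (2) The point mass at `t` is
replaced by the corresponding combination of windows, and the traces are chosen one after the other such that a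
weighted sum of the squares of all errors remains as small as for independent random choices.
-/

set_option autoImplicit false

namespace Pool.Agent.Results.MP_c481b3_nt.ExactExponentForProducts

open Finset
open Pool.Agent.H414.LT (primesUpTo blk)
open Pool.Agent.H414.DF (box IsSystem)
open Pool.Agent.H414.EX

/-- The discrepancy bound with the exponent `3 / 4 + ε` for boxes in `SU(2)^g`, and its sharpness. -/
theorem result :
    (∀ (g : ℕ) (s : ℕ → Fin g → ℝ), (∀ p i, |s p i| ≤ 2) → HasBound g (fun _ _ => 1) s →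
      ∀ ε : ℝ, 0 < ε → ∃ C : ℝ, ∀ (x : ℕ) (α β : Fin g → ℝ),
        (∀ i, 0 ≤ α i ∧ α i ≤ β i ∧ β i ≤ Real.pi) →
        |cntBox s x α β - ((primesUpTo x).card : ℝ) * ∏ i, st (α i) (β i)| ≤
          C * ((x : ℝ) + 1) ^ (3 / 4 + ε)) ∧
    ∀ (g : ℕ) (c : ℕ → ℕ → ℂ) (δ : ℝ) (f : ℕ → (Fin g → ℤ) → ℕ), 1 ≤ g → 0 < δ →
      (∀ i p, ‖c i p‖ ≤ 1) →
      (∀ k, ((∑ t ∈ box g (k ^ 2), f k t : ℕ) : ℝ) ≤ (2 : ℝ) ^ (k * (3 / 4 - δ))) →
      ∃ a : ℕ → Fin g → ℤ, IsSystem g a ∧ HasBound g c (fun p => nt p (a p)) ∧
        ∃ k₁ : ℕ, ∀ k, k₁ ≤ k → ∀ t ∈ box g (k ^ 2), ((blk k).filter fun p => a p = t).card = f k t := by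
  have hUS := Pool.Agent.H414.LT.us
  have hUB := Pool.Agent.H414.LT.ub
  have hUL := Pool.Agent.H414.LT.ul
  have hCHE := Pool.Agent.H414.LT.che
  refine ⟨upr (conv hUS (apx maj cnv)) tel (lint lin) rrb, ?_⟩
  exact sharp (rho (Pool.Agent.H414.CA.mean hUS hUB hUL)) mu (mas ker hCHE) (pos ker) (tot ker) (cnt ker)
    (sq ker hUB) (sel Pool.Agent.H414.DF.eng hUB) (nub ker (bias hUB hUL))
    (modif Pool.Agent.H414.DF.asg hCHE)

end Pool.Agent.Results.MP_c481b3_nt.ExactExponentForProducts
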