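import Mathlib
import Pool.Agent.H419.LC.Fam

set_option autoImplicit false

/-!
# The Sato-Tate averages of the quadratic twists of an abelian variety, uniformly in the conductor

`K` is a number field, `G` a compact group (the Sato-Tate group of an abelian variety `A` over `K`,
or `USp(2g)`), `z ∈ G` a central element (`z = -1`) and `x_v ∈ G` an element of the class of the
prime `v` (arbitrary at the finitely many other primes). Nothing is assumed about the `x_v`. The
class of the quadratic twist `A_D` by a squarefree integer `D` at a prime `v` not dividing `2 D` is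
the one of `x_v` or of `z x_v = -x_v`, as `D` is a square modulo `v` or not (`IsTwist`).

Let `A ≥ 0` and `η > 0` be real numbers and `𝓕` a compact set of continuous class functions, for
instance all class functions with Lipschitz constant and absolute value `≤ 1` for some metric.

1. (Dirichlet characters.) Let `g` be a function on the primes of `K` with `|g| ≤ 1`. At every large
   scale `N` at most `C (log N) ^ ⌊A⌋` different (primitive) Dirichlet characters `χ` with moduli
   up to `N ^ A` are such that the mean of `g(v) χ(q_v)` over the primes `v` with `q_v ≤ N` is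
   larger than `η` in absolute value. For `A < 1` the number is bounded.
2. (Twists at one scale.) At every large scale `N` all squarefree `D` with `|D| ≤ N ^ A`, with at
   most `C (log N) ^ ⌊A / 2⌋` exceptions, are such that for all `f ∈ 𝓕` the mean over the classes of
   the twist at the primes with `q_v ≤ N` differs by at most `η` from the mean over the classes of
   `A` of the even part `(f(x) + f(z x)) / 2`. So for `A < 2`, that is for the scales
   `N ≥ |D| ^ (1/2 + ε)`, there are only `O(1)` exceptions. If the Sato-Tate law is known for `A`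
   then the means over the classes of the twists are, for all large `N`, those predicted by the law,
   up to `η`, for all squarefree `|D| ≤ N ^ A` with as many exceptions.
3. (All scales.) Let `B ≥ 0`. There is a set `E` of integers with at most
   `C (log X) ^ (⌊A / 2⌋ + 1)` elements between `-X` and `X`, for all `X ≥ 2`, such that the
   statements in 2 hold for all squarefree `D ∉ E` and all `N` with `|D| ^ (1/A) ≤ N ≤ |D| ^ B`.

The numbers `C` and `N₀` depend on `K`, `G`, `𝓕`, `A`, `B`, `η` and not on the `x_v`, so not on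
the abelian variety; only the `N₁` in the addendum on the law depends on it.

Proof: duality, a power `k` of the sum over the primes, Selberg's weights as a majorant of the
products of `k` large primes, and the estimates of Pólya-Vinogradov (part 1) and Burgess (parts 2
and 3, from the library) for the characters which are products of two of the given ones.
-/

namespace Pool.Agent.Results.MP_c481b3_nt.FewTwists

open NumberField IsDedekindDomain Filter Topology MeasureTheory
open Pool.Agent.H419.BS (q meanAll Equidistributed)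
open Pool.Agent.H419.LC (ev Differ IsTwist Good)

/-- For all representatives `y` of the classes of the twist by `D` and all `f ∈ 𝓕` the mean value
of `f (y v)` over the primes `v` of norm at most `N` differs by at most `η` from `∫ f dμ`. -/
def Law {K : Type} [Field K] [NumberField K] {G : Type} [Group G] [TopologicalSpace G]
    [MeasurableSpace G] (μ : Measure G) (z : G) (𝓕 : Set C(G, ℂ)) (η : ℝ)
    (x : HeightOneSpectrum (𝓞 K) → G) (D : ℤ) (N : ℕ) : Prop :=
  ∀ y : HeightOneSpectrum (𝓞 K) → G, IsTwist z D x y → ∀ f ∈ 𝓕,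
    ‖meanAll (fun v => f (y v)) N - ∫ g, f g ∂μ‖ ≤ η

theorem law_of {K : Type} [Field K] [NumberField K] {G : Type} [Group G] [TopologicalSpace G]
    [MeasurableSpace G] {μ : Measure G} {z : G} {𝓕 : Set C(G, ℂ)} {η : ℝ}
    {x : HeightOneSpectrum (𝓞 K) → G} {D : ℤ} {N : ℕ} (h : Good z 𝓕 (η / 2) x D N)
    (h2 : ∀ f ∈ 𝓕, ‖meanAll (fun v => (f (x v) + f (z * x v)) / 2) N - ∫ g, f g ∂μ‖ ≤ η / 2) :
    Law μ z 𝓕 η x D N := by
  intro y hy f hf
  have h3 := h y hy f hf
  have h4 := h2 f hf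
  calc ‖meanAll (fun v => f (y v)) N - ∫ g, f g ∂μ‖
      = ‖(meanAll (fun v => f (y v)) N - meanAll (fun v => (f (x v) + f (z * x v)) / 2) N) +
        (meanAll (fun v => (f (x v) + f (z * x v)) / 2) N - ∫ g, f g ∂μ)‖ := by congr 1; ring
    _ ≤ _ := (norm_add_le _ _).trans (by linarith)

/-- **Few characters and few quadratic twists.** -/
theorem result (K : Type) [Field K] [NumberField K] :
    -- 1. Dirichlet characters
    (∀ A η : ℝ, 0 ≤ A → 0 < η → ∃ (C : ℝ) (N₀ : ℕ), ∀ N : ℕ, N₀ ≤ N →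
      ∀ g : HeightOneSpectrum (𝓞 K) → ℂ, (∀ v, ‖g v‖ ≤ 1) →
      ∀ I : Finset (Σ q : ℕ, DirichletCharacter ℂ q),
        (∀ c ∈ I, c.1 ≠ 0 ∧ (c.1 : ℝ) ≤ (N : ℝ) ^ A) →
        (∀ c ∈ I, ∀ c' ∈ I, c ≠ c' → Differ c c') →
        (∀ c ∈ I, η ≤ ‖meanAll (fun v => g v * ev c (q v)) N‖) →
        (I.card : ℝ) ≤ C * Real.log N ^ ⌊A⌋₊) ∧
    ∀ (G : Type) [Group G] [TopologicalSpace G] [IsTopologicalGroup G] [CompactSpace G]
      [MeasurableSpace G] [BorelSpace G] (μ : Measure G) [IsProbabilityMeasure μ]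
      [μ.IsHaarMeasure] (z : G) (_ : ∀ g, z * g = g * z) (𝓕 : Set C(G, ℂ)) (_ : IsCompact 𝓕)
      (_ : ∀ f ∈ 𝓕, ∀ g h, f (h * g * h⁻¹) = f g) (A η : ℝ) (_ : 0 ≤ A) (_ : 0 < η),
    -- 2. twists at one scale
    (∃ (C : ℝ) (N₀ : ℕ), ∀ x : HeightOneSpectrum (𝓞 K) → G, ∃ E : ℕ → Finset ℤ,
      (∀ N : ℕ, N₀ ≤ N → ((E N).card : ℝ) ≤ C * Real.log N ^ ⌊A / 2⌋₊ ∧
        ∀ D : ℤ, Squarefree D → |(D : ℝ)| ≤ (N : ℝ) ^ A → D ∉ E N → Good z 𝓕 η x D N) ∧
      (Equidistributed (fun _ => True) x μ → ∃ N₁ : ℕ, ∀ N : ℕ, N₁ ≤ N →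
        ∀ D : ℤ, Squarefree D → |(D : ℝ)| ≤ (N : ℝ) ^ A → D ∉ E N → Law μ z 𝓕 η x D N)) ∧
    -- 3. twists at all scales
    (∀ B : ℝ, 0 ≤ B → ∃ C : ℝ, ∀ x : HeightOneSpectrum (𝓞 K) → G, ∃ E : Set ℤ,
      (∀ X : ℕ, 2 ≤ X →
        (({D : ℤ | D ∈ E ∧ |D| ≤ X}.ncard : ℕ) : ℝ) ≤ C * Real.log X ^ (⌊A / 2⌋₊ + 1)) ∧
      (∀ D : ℤ, Squarefree D → D ∉ E → ∀ N : ℕ, |(D : ℝ)| ≤ (N : ℝ) ^ A →
        (N : ℝ) ≤ |(D : ℝ)| ^ B → Good z 𝓕 η x D N) ∧
      (Equidistributed (fun _ => True) x μ → ∃ N₁ : ℕ, ∀ N : ℕ, N₁ ≤ N →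
        ∀ D : ℤ, Squarefree D → D ∉ E → |(D : ℝ)| ≤ (N : ℝ) ^ A → (N : ℝ) ≤ |(D : ℝ)| ^ B →
        Law μ z 𝓕 η x D N)) := by
  classical
  refine ⟨fun A η hA hη => ?_, ?_⟩
  · obtain ⟨C, N₁, hC, hch⟩ := Pool.Agent.H419.LC.chars_pow K A (η / 2) hA (by positivity)
    obtain ⟨N₂, hN₂⟩ := eventually_atTop.1 ((Pool.Agent.H419.LC.U_bounds (K := K)).and
      (eventually_ge_atTop 3))
    refine ⟨C, max N₁ N₂, fun N hN g hg I hI hdiff hbig => ?_⟩
    obtain ⟨⟨hU1, -⟩, hN3⟩ := hN₂ N ((le_max_right _ _).trans hN)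
    have hN0 : (0 : ℝ) < N := by exact_mod_cast (by omega : 0 < N)
    have hL0 : 0 < Real.log N := Real.log_pos (by exact_mod_cast (by omega : 1 < N))
    have hU0 : 0 < Pool.Agent.H419.BS.U K N := by
      have : 0 < (N : ℝ) / Real.log N / 2 := by positivity
      linarith
    refine hch N ((le_max_left _ _).trans hN) g hg I hI hdiff fun c hc => ?_
    have h1 := hbig c hc
    rw [Pool.Agent.H419.BS.meanAll_eq, norm_div, Complex.norm_real, Real.norm_of_nonneg hU0.le,
      le_div_iff₀ hU0] at h1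
    refine le_trans ?_ h1
    calc η / 2 * ((N : ℝ) / Real.log N) = η * ((N : ℝ) / Real.log N / 2) := by ring
      _ ≤ _ := by gcongr
  · intro G _ _ _ _ _ _ μ _ _ z hz 𝓕 h𝓕 hcl A η hA hη
    have hmono : ∀ (x : HeightOneSpectrum (𝓞 K) → G) (D : ℤ) (N : ℕ), Good z 𝓕 (η / 2) x D N →
        Good z 𝓕 η x D N := fun x D N h y hy f hf => (h y hy f hf).trans (by linarith)
    refine ⟨?_, fun B hB => ?_⟩
    · obtain ⟨C, N₀, h⟩ := Pool.Agent.H419.LC.fam_one K z 𝓕 h𝓕 hcl A (η / 2) hA (by positivity)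
      refine ⟨C, N₀, fun x => ?_⟩
      have hex : ∀ N : ℕ, ∃ E : Finset ℤ, N₀ ≤ N → (E.card : ℝ) ≤ C * Real.log N ^ ⌊A / 2⌋₊ ∧
          ∀ D : ℤ, Squarefree D → |(D : ℝ)| ≤ (N : ℝ) ^ A → D ∉ E → Good z 𝓕 (η / 2) x D N := by
        intro N
        by_cases hN : N₀ ≤ N
        · obtain ⟨E, hE⟩ := h N hN x
          exact ⟨E, fun _ => hE⟩
        · exact ⟨∅, fun h' => absurd h' hN⟩
      choose E hE using hex
      refine ⟨E, fun N hN => ⟨(hE N hN).1, fun D hD hDN hDE => hmono x D N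
        ((hE N hN).2 D hD hDN hDE)⟩, fun hx => ?_⟩
      obtain ⟨N₁, hN₁⟩ := Pool.Agent.H419.LC.unif μ z hz 𝓕 h𝓕 hcl (show 0 < η / 2 by positivity) hx
      exact ⟨max N₀ N₁, fun N hN D hD hDN hDE =>
        law_of ((hE N ((le_max_left _ _).trans hN)).2 D hD hDN hDE)
          (hN₁ N ((le_max_right _ _).trans hN))⟩
    · obtain ⟨C, h⟩ := Pool.Agent.H419.LC.fam_all K z 𝓕 h𝓕 hcl A B (η / 2) hA hB (by positivity)
      refine ⟨C, fun x => ?_⟩
      obtain ⟨E, hE1, hE2⟩ := h x
      refine ⟨E, hE1, fun D hD hDE N hN1 hN2 => hmono x D N (hE2 D hD hDE N hN1 hN2), fun hx => ?_⟩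
      obtain ⟨N₁, hN₁⟩ := Pool.Agent.H419.LC.unif μ z hz 𝓕 h𝓕 hcl (show 0 < η / 2 by positivity) hx
      exact ⟨N₁, fun N hN D hD hDE hN1 hN2 => law_of (hE2 D hD hDE N hN1 hN2) (hN₁ N hN)⟩

end Pool.Agent.Results.MP_c481b3_nt.FewTwists
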