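import Pool.Agent.H63.HS.Sharp
import Pool.Agent.H63.HS.Gauss

/-!
# Abelian varieties of arbitrary dimension: weighted traces of Frobenius are Gaussian for most signs

Let `E_i`, `i ∈ ι`, be `n` modular elliptic curves without complex multiplication over an arbitrary number
field `K`, no two of them isogenous up to a twist over an extension of `K`, and let `A` be isogenous to
their product; the Sato-Tate group of `A` is `SU(2)^n`.  (More generally: the conjugates of a newform of
weight two, `A` the simple abelian variety of `GL(2)`-type attached to it, without inner twists.)  The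
Sato-Tate law for `A` is open for `n ≥ 3`, and if `K` is not totally real or CM for all `n`.  We only use
that the products of total degree at most two, `1`, `E_i`, `Sym² E_i` (Gelbart, Jacquet) and `E_i ⊗ E_j`
(Ramakrishnan), are automorphic, cuspidal and pairwise different, and the theory of Rankin and Selberg on
`Re s = 1` (`DegreeTwo`).  Let `x_v ∈ [-2, 2]^n` be the vector of the normalised traces of Frobenius.  The
Sato-Tate law predicts that for `n` large the scalar products `⟨c, x_v⟩`, `|c| = 1`, have nearly the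
standard Gaussian law, if all the `c_i` are small.  We prove this for most choices of the signs of `c`.

* (5) the mean over all the `2^n` choices of the signs of `c`, `|c| = 1`, of the square of the distance of
  the characteristic function of `⟨c, x_v⟩` at `t` from `exp (-t²/2)` is at most
  `144 t⁴ κ + 4 t² √κ`, `κ = ∑ c_i⁴`, for all `c` and `t` at once;
* (6) for every `δ > 0` there is `κ₀ > 0` such that for all fields `K`, all `n` and all families of `n`
  curves, for all large `N` and all unit vectors `c` with `∑ c_i⁴ ≤ κ₀`: for all but `δ 2^n` of the choices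
  of signs the distribution function of `⟨±c, x_v⟩` over the primes of norm at most `N` is at the distance
  at most `δ` from that of the Gaussian law, uniformly on the real line.  For example, for most partitions
  of the curves into two sets with products `A_1`, `A_2` the difference of the traces of Frobenius of `A_1`
  and `A_2`, divided by `√(n q_v)`, is nearly Gaussian;
* (1) the first four moments of `⟨c, x_v⟩`, uniformly in the unit vector `c`;
* (2), (3) for all large `N` and all `c ≠ 0` at once the half space `⟨c, x⟩ > 0` contains `x_v` for a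
  proportion of at least `1/(2 (3 - κ)) - η`, `κ = ∑ c_i⁴ / (∑ c_i²)²`, and at least `1/6`, of the primes
  of norm at most `N`;
* (4) for all `t < 1` and large `N` every half space at the distance `t` from the origin contains `x_v` for
  a proportion of at least `(1 - t)^4 / 26`; so the convex hull of the `x_v`, `N v ≤ N`, contains the ball
  of radius `t`, even if any set of primes of a proportion smaller than `(1 - t)^4 / 26` is deleted.
-/

set_option autoImplicit false
set_option linter.unusedSectionVars false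

namespace Pool.Agent.Results.MP_c481b3_nt.GaussianTraces

open NumberField IsDedekindDomain Filter Pool.Agent.H63.HS

section

variable {K : Type} [Field K] [NumberField K] {ι : Type} [Fintype ι]
  {θ : ι → HeightOneSpectrum (𝓞 K) → ℝ}

theorem norm_pos {c : ι → ℝ} (hc : c ≠ 0) : 0 < ∑ i, c i ^ 2 := by
  obtain ⟨i, hi⟩ : ∃ i, c i ≠ 0 := by
    by_contra h
    push Not at h
    exact hc (funext h)
  exact Finset.sum_pos' (fun i _ => sq_nonneg _) ⟨i, Finset.mem_univ i, by positivity⟩

theorem norm_one {c : ι → ℝ} (hc : c ≠ 0) : ∑ i, (c i / √(∑ j, c j ^ 2)) ^ 2 = 1 := by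
  have h1 := norm_pos hc
  have h2 : ∀ i, (c i / √(∑ j, c j ^ 2)) ^ 2 = c i ^ 2 / (∑ j, c j ^ 2) := fun i => by
    rw [div_pow, Real.sq_sqrt h1.le]
  rw [Finset.sum_congr rfl fun i _ => h2 i, ← Finset.sum_div, div_self h1.ne']

theorem norm_four {c : ι → ℝ} (hc : c ≠ 0) :
    ∑ i, (c i / √(∑ j, c j ^ 2)) ^ 4 = (∑ i, c i ^ 4) / (∑ j, c j ^ 2) ^ 2 := by
  have h1 := norm_pos hc
  have h3 : √(∑ j, c j ^ 2) ^ 4 = (∑ j, c j ^ 2) ^ 2 := by
    have : √(∑ j, c j ^ 2) ^ 4 = (√(∑ j, c j ^ 2) ^ 2) ^ 2 := by ring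
    rw [this, Real.sq_sqrt h1.le]
  have h2 : ∀ i, (c i / √(∑ j, c j ^ 2)) ^ 4 = c i ^ 4 / (∑ j, c j ^ 2) ^ 2 := fun i => by
    rw [div_pow, h3]
  rw [Finset.sum_congr rfl fun i _ => h2 i, ← Finset.sum_div]

theorem proj_norm (c : ι → ℝ) (r : ℝ) (v : HeightOneSpectrum (𝓞 K)) :
    proj θ (fun i => c i / r) v = proj θ c v / r := by
  unfold proj
  rw [Finset.sum_div]
  exact Finset.sum_congr rfl fun i _ => by ring

end

theorem result :
    (∀ (K : Type) [Field K] [NumberField K] (ι : Type) [Fintype ι] [DecidableEq ι]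
      [Nonempty ι] (θ : ι → HeightOneSpectrum (𝓞 K) → ℝ), DegreeTwo θ →
      -- (1) four moments
      (∀ η : ℝ, 0 < η → ∀ᶠ N in atTop, ∀ c : ι → ℝ, ∑ i, c i ^ 2 = 1 →
        |average (fun v => proj θ c v) N| ≤ η ∧ |average (fun v => proj θ c v ^ 2) N - 1| ≤ η ∧
        |average (fun v => proj θ c v ^ 3) N| ≤ η ∧
        |average (fun v => proj θ c v ^ 4) N - (3 - ∑ i, c i ^ 4)| ≤ η) ∧
      -- (2), (3) half spaces through the origin
      (∀ η : ℝ, 0 < η → ∀ᶠ N in atTop, ∀ c : ι → ℝ, c ≠ 0 →
        1 / (2 * (3 - (∑ i, c i ^ 4) / (∑ i, c i ^ 2) ^ 2)) - η ≤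
          proportion {v | 0 < proj θ c v} N) ∧
      (∀ᶠ N in atTop, ∀ c : ι → ℝ, c ≠ 0 → 1 / 6 ≤ proportion {v | 0 < proj θ c v} N) ∧
      -- (4) half spaces at the distance `t`, and convex hulls
      (∀ t : ℝ, 0 ≤ t → t < 1 → ∀ᶠ N in atTop,
        (∀ c : ι → ℝ, c ≠ 0 →
          (1 - t) ^ 4 / 26 ≤ proportion {v | t * √(∑ i, c i ^ 2) < proj θ c v} N) ∧
        ∀ R : Set (HeightOneSpectrum (𝓞 K)), proportion R N < (1 - t) ^ 4 / 26 →
          ∀ p : ι → ℝ, ∑ i, p i ^ 2 ≤ t ^ 2 → p ∈ convexHull ℝ ((fun v i => 2 * Real.cos (θ i v)) ''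
            {v : HeightOneSpectrum (𝓞 K) | Ideal.absNorm v.asIdeal ≤ N ∧ v ∉ R})) ∧
      -- (5) the characteristic functions, on average over the signs
      (∀ᶠ N in atTop, ∀ c : ι → ℝ, ∑ i, c i ^ 2 = 1 → ∀ t : ℝ,
        (∑ s : ι → Bool, ((average (fun v => Real.cos (t * proj θ (flip s c) v)) N -
          Real.exp (-(t ^ 2 / 2))) ^ 2 +
          average (fun v => Real.sin (t * proj θ (flip s c) v)) N ^ 2)) / 2 ^ Fintype.card ι ≤
        144 * t ^ 4 * (∑ i, c i ^ 4) + 4 * t ^ 2 * √(∑ i, c i ^ 4))) ∧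
    -- (6) the Gaussian law for most signs
    (∀ δ : ℝ, 0 < δ → ∃ κ₀ : ℝ, 0 < κ₀ ∧ ∀ (K : Type) [Field K] [NumberField K] (ι : Type)
      [Fintype ι] [DecidableEq ι] (θ : ι → HeightOneSpectrum (𝓞 K) → ℝ), DegreeTwo θ →
      ∀ᶠ N in atTop, ∀ c : ι → ℝ, ∑ i, c i ^ 2 = 1 → ∑ i, c i ^ 4 ≤ κ₀ →
        (Nat.card {s : ι → Bool // ¬ ∀ b : ℝ, |proportion {v | proj θ (flip s c) v ≤ b} N -
          (ProbabilityTheory.gaussianReal 0 1).real (Set.Iic b)| ≤ δ} : ℝ) ≤
          δ * 2 ^ Fintype.card ι) := by
  refine ⟨?_, fun δ hδ => gauss_kolmogorov hδ⟩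
  intro K _ _ ι _ _ _ θ h
  refine ⟨fun η hη => ?_, fun η hη => ?_, ?_, fun t ht0 ht1 => ?_, ?_⟩
  · simp only [average_eq]
    exact moments h hη
  · filter_upwards [half_sharp h hη] with N hN c hc
    have h1 := hN _ (norm_one hc)
    have h2 := Real.sqrt_pos.2 (norm_pos hc)
    rw [norm_four hc] at h1
    simpa only [proj_norm, div_pos_iff_of_pos_right h2] using h1
  · have hn : (1 : ℝ) ≤ Fintype.card ι := by
      have h0 : 1 ≤ Fintype.card ι := Fintype.card_pos
      exact_mod_cast h0
    have h1 : (0 : ℝ) < 6 * Fintype.card ι - 2 := by linarith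
    have h2 : 0 < (Fintype.card ι : ℝ) / (6 * Fintype.card ι - 2) - 1 / 6 := by
      rw [sub_pos, div_lt_div_iff₀ (by norm_num) h1]
      linarith
    filter_upwards [half h h2] with N hN c hc
    have h3 := hN _ (norm_one hc)
    have h4 := Real.sqrt_pos.2 (norm_pos hc)
    simp only [proj_norm, div_pos_iff_of_pos_right h4] at h3
    linarith
  · filter_upwards [far h ht0 ht1] with N hN
    have key : ∀ c : ι → ℝ, c ≠ 0 →
        (1 - t) ^ 4 / 26 ≤ proportion {v | t * √(∑ i, c i ^ 2) < proj θ c v} N := by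
      intro c hc
      have h1 := hN _ (norm_one hc)
      have h2 := Real.sqrt_pos.2 (norm_pos hc)
      simpa only [proj_norm, lt_div_iff₀ h2] using h1
    exact ⟨key, fun R hR p hp => hull ht0 key hR hp⟩
  · filter_upwards [gauss_sq h] with N hN c hc t
    simp only [average_eq]
    rw [div_le_iff₀ (by positivity), mul_comm]
    exact hN c hc t

end Pool.Agent.Results.MP_c481b3_nt.GaussianTraces
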