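import Pool.Agent.H480.ST.C

/-!
# The Sato-Tate law over an arbitrary number field: bounded local rank and two mean values

`K` is any number field and `θ_v ∈ ℝ` a family of angles for the primes `v` of `K`, for example the Frobenius angles
`a_v = 2 N(v)^{1/2} cos θ_v` of an elliptic curve over `K` (arbitrary angles at the finitely many bad primes). Let `a_n(m)`
be the coefficients of the Dirichlet series of `L(Symⁿ, s) = ∏_v ∏_{j ≤ n} (1 - e^{i(n-2j)θ_v} N(v)^{-s})⁻¹`, and let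

  `V_n(x) = ∑_m a_n(m) exp(- log(x/m)² / (2λ))`

be their sum around `x`, smoothed by a Gaussian in the logarithmic scale. Fix `A, A' > 1`. We say that `V_n` has bounded
local rank if there are `λ > 0`, a number `r` and `β < 1` such that, for all large `X`, the kernel `V_n(X x y)` is on
`[1, A] × [1, A']` in the mean within `X^β` of SOME sum of `r` products `u_i(x) v_i(y)`. The functions `u_i`, `v_i` may depend
on `X` in any way; there is no condition which relates different scales `X`, no continuation of an `L`-function is assumed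
and no main term is given. All automorphic families have this property (with `r = 0` if `L(Symⁿ, s)` is entire).

* `V_n` has bounded local rank if and only if `L(Symⁿ, s)` continues to a meromorphic function on a half-plane
  `Re s > δ`, `δ < 1`, with finitely many poles and of growth `exp(C t²)`.
* The Sato-Tate law together with these continuations for all `n ≥ 1` is equivalent to: all `V_n` have bounded local rank,
  `V_2(x)/x` and `V_4(x)/x` have the logarithmic mean value zero, and the angles do not accumulate only at the multiples of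
  a number `π/N` (outside a set of primes of density zero).
* It is also equivalent to: all `V_n` have bounded local rank, and the logarithmic mean values of `V_n(x)/x` are zero for all
  even `n ≥ 2`. Nothing is supposed about zeros of the `L`-functions, and nothing about the mean values for odd `n`.
* If all `V_n` have bounded local rank and only the mean value of `V_2(x)/x` is known to be zero then the Sato-Tate law of
  `SU(2)`, or the law of the normaliser of `U(1)`, holds, or the angles accumulate only at the multiples of some `π/N`.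

Proof. The first item is the rigidity theorem for approximate ranks (Pool.Agent.H480.M8). A mean value is zero if and only
if there is no pole at `s = 1`. For the rest one uses the classification of the possible orders at `s = 1` by root lattices,
from the library (MeromorphyOfSymmetricPowers), and, if there are no poles for even `n`, the positivity of the mean value of
`χ_m² = χ_0 + χ_2 + ... + χ_2m`, `χ_n(t) = sin((n+1)t)/sin t`, with the relation `χ_(m+1)² - χ_m χ_(m+2) = 1`.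
-/

set_option autoImplicit false

open NumberField IsDedekindDomain Filter Topology MeasureTheory Set

namespace Pool.Agent.Results.MP_c481b3_nt.LocalRankAndTwoMeans

noncomputable section

variable {K : Type} [Field K] [NumberField K]

/-- The average of `φ` over the primes of `K` of norm at most `N`. -/
def avg (φ : HeightOneSpectrum (𝓞 K) → ℝ) (N : ℕ) : ℝ :=
  (∑ᶠ w : {w : HeightOneSpectrum (𝓞 K) // Ideal.absNorm w.asIdeal ≤ N}, φ w.1) /
    (Nat.card {w : HeightOneSpectrum (𝓞 K) // Ideal.absNorm w.asIdeal ≤ N} : ℝ)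

/-- The quotient `∑ φ(v) N(v)^{-1-ε} / ∑ N(v)^{-1-ε}`. -/
def dirichletAvg (φ : HeightOneSpectrum (𝓞 K) → ℝ) (ε : ℝ) : ℝ :=
  (∑' v : HeightOneSpectrum (𝓞 K), φ v * (Ideal.absNorm v.asIdeal : ℝ) ^ (-(1 + ε))) /
    ∑' v : HeightOneSpectrum (𝓞 K), (Ideal.absNorm v.asIdeal : ℝ) ^ (-(1 + ε))

/-- The integral of `f(2 cos t)` for the Sato-Tate measure `(2/π) sin² t dt`. -/
def satoTate (f : ℝ → ℝ) : ℝ :=
  2 / Real.pi * ∫ t in (0 : ℝ)..Real.pi, f (2 * Real.cos t) * Real.sin t ^ 2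

/-- The integral of `f(2 cos t)` for the measure of the normaliser of `U(1)` in `SU(2)`: half of the uniform
measure `dt/π` and half of the point mass at `t = π/2`. -/
def normaliser (f : ℝ → ℝ) : ℝ :=
  1 / (2 * Real.pi) * (∫ t in (0 : ℝ)..Real.pi, f (2 * Real.cos t)) + f 0 / 2

/-- The Sato-Tate law: equidistribution of the `2 cos θ_v`, in the sense of natural density. -/
def SatoTateLaw (θ : HeightOneSpectrum (𝓞 K) → ℝ) : Prop :=
  ∀ f : ℝ → ℝ, Continuous f → Tendsto (avg fun v => f (2 * Real.cos (θ v))) atTop (𝓝 (satoTate f))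

/-- The Sato-Tate law in the sense of Dirichlet density. -/
def DirichletLaw (θ : HeightOneSpectrum (𝓞 K) → ℝ) : Prop :=
  ∀ f : ℝ → ℝ, Continuous f → Tendsto (dirichletAvg fun v => f (2 * Real.cos (θ v))) (𝓝[>] 0) (𝓝 (satoTate f))

/-- The law of the normaliser of `U(1)`, in the sense of Dirichlet density. -/
def NormaliserLaw (θ : HeightOneSpectrum (𝓞 K) → ℝ) : Prop :=
  ∀ f : ℝ → ℝ, Continuous f → Tendsto (dirichletAvg fun v => f (2 * Real.cos (θ v))) (𝓝[>] 0) (𝓝 (normaliser f))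

open Classical in
/-- There is `N ≥ 1` such that the angles accumulate only at the multiples of `π/N`: for every `δ > 0` the set of primes with
`|sin (N θ_v)| ≥ δ` has Dirichlet density zero. -/
def FiniteType (θ : HeightOneSpectrum (𝓞 K) → ℝ) : Prop :=
  ∃ N : ℕ, 1 ≤ N ∧ ∀ δ : ℝ, 0 < δ →
    Tendsto (dirichletAvg fun v => if v ∈ {v | δ ≤ |Real.sin (N * θ v)|} then 1 else 0) (𝓝[>] 0) (𝓝 0)

/-- The Euler product `L(Symⁿ, s) = ∏_v ∏_{j ≤ n} (1 - e^{i(n-2j)θ_v} N(v)^{-s})⁻¹`. -/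
def LSym (θ : HeightOneSpectrum (𝓞 K) → ℝ) (n : ℕ) (s : ℂ) : ℂ :=
  ∏' v : HeightOneSpectrum (𝓞 K), (∏ j ∈ Finset.range (n + 1),
    (1 - Complex.exp (((((n : ℝ) - 2 * (j : ℝ)) * θ v : ℝ) : ℂ) * Complex.I) *
      (Ideal.absNorm v.asIdeal : ℂ) ^ (-s)))⁻¹

/-- `a` is the sequence of the coefficients of the Dirichlet series of `L(Symⁿ, s)`. -/
def IsCoeff (θ : HeightOneSpectrum (𝓞 K) → ℝ) (n : ℕ) (a : ℕ → ℂ) : Prop :=
  ∀ s : ℂ, 1 < s.re → LSeriesSummable a s ∧ LSeries a s = LSym θ n s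

/-- the smoothed sum `V(x) = ∑ a(m) exp(- log(x/m)² / (2λ))`, `m ≥ 1` -/
def V (a : ℕ → ℂ) (lam x : ℝ) : ℂ :=
  ∑' m : ℕ, if m = 0 then 0 else a m * (Real.exp (-Real.log (x / m) ^ 2 / (2 * lam)) : ℝ)

/-- on the rectangle `[1, A] × [1, A']` the kernel `S(X x y)` is in the mean within `ε` of a sum of `r` products
`u_i(x) v_i(y)` of integrable functions of one variable -/
def WithinRank (S : ℝ → ℂ) (A A' : ℝ) (r : ℕ) (ε X : ℝ) : Prop :=
  ∃ u v : Fin r → ℝ → ℂ, (∀ i, IntegrableOn (u i) (Icc 1 A)) ∧ (∀ i, IntegrableOn (v i) (Icc 1 A')) ∧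
    ∫ z in Icc 1 A ×ˢ Icc 1 A', ‖S (X * z.1 * z.2) - ∑ i, u i z.1 * v i z.2‖ ≤ ε

/-- bounded local rank, with an error smaller than a power of `X` with exponent less than one -/
def BoundedRank (a : ℕ → ℂ) (A A' : ℝ) : Prop :=
  ∃ lam : ℝ, 0 < lam ∧ ∃ (r : ℕ) (β : ℝ), β < 1 ∧ ∀ᶠ X : ℝ in atTop, WithinRank (V a lam) A A' r (X ^ β) X

/-- the Dirichlet series `F(s) = ∑ a(m) m^(-s)` continues to the meromorphic function `g(s) / ∏ (s - ρ_j)` on some half-plane
`Re s > δ` with `δ < 1`, where `g` is holomorphic and `O(exp(C t²))` in each strip `σ₁ ≤ Re s ≤ σ₂`, `σ₁ > δ` -/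
def Continues (a : ℕ → ℂ) : Prop :=
  ∃ (δ : ℝ) (r : ℕ) (ρ : Fin r → ℂ) (g : ℂ → ℂ), δ < 1 ∧ (∀ j, δ < (ρ j).re) ∧
    (∀ s : ℂ, δ < s.re → DifferentiableAt ℂ g s) ∧
    (∃ c : ℝ, ∀ s : ℂ, c < s.re → g s = (∏ j, (s - ρ j)) * LSeries a s) ∧
    ∃ C : ℝ, ∀ σ₁ σ₂ : ℝ, δ < σ₁ → ∃ B : ℝ, ∀ s : ℂ, σ₁ ≤ s.re → s.re ≤ σ₂ → ‖g s‖ ≤ B * Real.exp (C * s.im ^ 2)

/-- the logarithmic mean value of `V(x)/x`, that is the mean value of `V(e^u) e^(-u)`, is zero in the sense of Abel -/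
def MeanZero (a : ℕ → ℂ) (lam : ℝ) : Prop :=
  Tendsto (fun ε : ℝ => (ε : ℂ) * ∫ u in Ioi (0:ℝ), V a lam (Real.exp u) * (Real.exp (-((1 + ε) * u)) : ℝ))
    (𝓝[>] 0) (𝓝 0)

open Pool.Agent.H480.K Pool.Agent.H480.ST in
theorem rank_iff {a : ℕ → ℂ} (hs : ∀ σ : ℝ, 1 < σ → LSeriesSummable a σ) {A A' : ℝ} (hA : 1 < A) (hA' : 1 < A') :
    BoundedRank a A A' ↔ Continues a := by
  obtain ⟨B, hB, ha⟩ := bd_of_sum hs
  constructor
  · rintro ⟨lam, hl, r, β, hβ, h⟩
    have h1 : ∀ β' : ℝ, ((β : ℝ) : EReal) < (β' : EReal) → ∀ᶠ X : ℝ in atTop, Near (VV a lam) A A' r β' X := by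
      intro β' hβ'
      have hβ2 : β < β' := by exact_mod_cast hβ'
      filter_upwards [h, eventually_ge_atTop 1] with X hX hX1
      obtain ⟨u, v, hu, hv, hle⟩ := hX
      exact ⟨u, v, hu, hv, hle.trans (Real.rpow_le_rpow_of_exponent_le hX1 hβ2.le)⟩
    have hT := (mero_tfae hB ha hA hA' (δ := (β : EReal)) (EReal.coe_lt_top β) r).out 2 0
    have h2 : ∃ lam : ℝ, 0 < lam ∧ ∀ β' : ℝ, ((β : ℝ) : EReal) < (β' : EReal) →
        ∀ᶠ X : ℝ in atTop, Near (VV a lam) A A' r β' X := ⟨lam, hl, h1⟩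
    obtain ⟨ρ, g, hc, C, hC⟩ := hT.1 h2
    refine ⟨β, r, ρ, g, hβ, fun j => by exact_mod_cast hc.poles j, fun s hs => hc.holo s (by exact_mod_cast hs), hc.eq,
      C, fun σ₁ σ₂ hσ => hC σ₁ σ₂ (by exact_mod_cast hσ)⟩
  · rintro ⟨δ, r, ρ, g, hδ, h1, h2, h3, C, hC⟩
    have hc : Cont a (δ : EReal) r ρ g := ⟨fun j => by exact_mod_cast h1 j, fun s hs => h2 s (by exact_mod_cast hs), h3⟩
    have hg : Gr (δ : EReal) C g := fun σ₁ σ₂ hσ => hC σ₁ σ₂ (by exact_mod_cast hσ)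
    have hT := (mero_tfae hB ha hA hA' (δ := (δ : EReal)) (EReal.coe_lt_top δ) r).out 0 2
    have h5 : ∃ (ρ : Fin r → ℂ) (g : ℂ → ℂ), Cont a (δ : EReal) r ρ g ∧ ∃ C : ℝ, Gr (δ : EReal) C g := ⟨ρ, g, hc, C, hg⟩
    obtain ⟨lam, hl, h4⟩ := hT.1 h5
    refine ⟨lam, hl, r, (δ + 1) / 2, by linarith, ?_⟩
    exact h4 ((δ + 1) / 2) (by exact_mod_cast (by linarith : δ < (δ + 1) / 2))

open Pool.Agent.H480.K Pool.Agent.H480.ST in
theorem result (K : Type) [Field K] [NumberField K] (θ : HeightOneSpectrum (𝓞 K) → ℝ) (a : ℕ → ℕ → ℂ)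
    (ha : ∀ n, 1 ≤ n → IsCoeff θ n (a n)) (A A' : ℝ) (hA : 1 < A) (hA' : 1 < A') (lam : ℝ) (hlam : 0 < lam) :
    -- bounded local rank and continuation
    (∀ n, 1 ≤ n → (BoundedRank (a n) A A' ↔ Continues (a n))) ∧
    -- the Sato-Tate law
    List.TFAE
      [(∀ n, 1 ≤ n → Continues (a n)) ∧ SatoTateLaw θ,
       (∀ n, 1 ≤ n → BoundedRank (a n) A A') ∧ DirichletLaw θ,
       (∀ n, 1 ≤ n → BoundedRank (a n) A A') ∧ ∀ k, 1 ≤ k → MeanZero (a (2 * k)) lam,
       (∀ n, 1 ≤ n → BoundedRank (a n) A A') ∧ MeanZero (a 2) lam ∧ MeanZero (a 4) lam ∧ ¬ FiniteType θ] ∧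
    -- the trichotomy
    ((∀ n, 1 ≤ n → BoundedRank (a n) A A') → MeanZero (a 2) lam →
      SatoTateLaw θ ∨ NormaliserLaw θ ∨ FiniteType θ) := by
  have hLS : ∀ n, LSym θ n = Pool.Agent.V1142.SC.Many.LA (fun v => Pool.Agent.V1142.SC.Rl.Am n (θ v)) := fun n =>
    Pool.Agent.Results.MP_c481b3_nt.MeromorphyOfSymmetricPowers.LSym_eq θ n
  have hcf : ∀ n, 1 ≤ n → Cf θ n (a n) := by
    intro n hn s hs
    have h1 := ha n hn s hs
    rw [hLS n] at h1
    exact h1
  have hrk : ∀ n, 1 ≤ n → (BoundedRank (a n) A A' ↔ Continues (a n)) := fun n hn =>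
    rank_iff (hcf n hn).sum hA hA'
  have hmero : (∀ n, 1 ≤ n → BoundedRank (a n) A A') → ∀ n, 1 ≤ n → ∀ τ : ℝ,
      Pool.Agent.Results.MP_c481b3_nt.MeromorphyOfSymmetricPowers.Meromorphic θ n τ := by
    intro h n hn τ
    obtain ⟨δ, r, ρ, g, hδ, h1, h2, h3, C, hC⟩ := (hrk n hn).1 (h n hn)
    have hc : Cont (a n) (δ : EReal) r ρ g :=
      ⟨fun j => by exact_mod_cast h1 j, fun s hs => h2 s (by exact_mod_cast hs), h3⟩
    obtain ⟨Λ, h4, h5⟩ := cont_ord (hcf n hn) hδ hc τ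
    refine ⟨Λ, h4, ?_⟩
    rw [Pool.Agent.Results.MP_c481b3_nt.MeromorphyOfSymmetricPowers.LSym_eq]
    exact h5
  have hT : (∀ n, 1 ≤ n → BoundedRank (a n) A A') →
      List.TFAE [SatoTateLaw θ, DirichletLaw θ, ∀ k, 1 ≤ k → MeanZero (a (2 * k)) lam,
        MeanZero (a 2) lam ∧ MeanZero (a 4) lam ∧ ¬ FiniteType θ] := fun h =>
    main_tfae hcf hlam (hmero h)
  refine ⟨hrk, ?_, fun h h2 => ?_⟩
  · tfae_have 1 → 2 := by
      rintro ⟨h1, h2⟩
      have h3 : ∀ n, 1 ≤ n → BoundedRank (a n) A A' := fun n hn => (hrk n hn).2 (h1 n hn)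
      exact ⟨h3, ((hT h3).out 0 1).1 h2⟩
    tfae_have 2 → 3 := fun ⟨h1, h2⟩ => ⟨h1, ((hT h1).out 1 2).1 h2⟩
    tfae_have 3 → 4 := fun ⟨h1, h2⟩ => ⟨h1, ((hT h1).out 2 3).1 h2⟩
    tfae_have 4 → 1 := fun ⟨h1, h2⟩ => ⟨fun n hn => (hrk n hn).1 (h1 n hn), ((hT h1).out 3 0).1 h2⟩
    tfae_finish
  · have h2' : ∀ m : ℤ, Pool.Agent.Results.MP_c481b3_nt.MeromorphyOfSymmetricPowers.HasOrder θ 2 0 m → 0 ≤ m :=
      fun m hm => (mz_order (hcf 2 (by norm_num)) hlam
        (Pool.Agent.Results.MP_c481b3_nt.MeromorphyOfSymmetricPowers.hasOrder_iff.1 hm)).1 h2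
    rcases Pool.Agent.Results.MP_c481b3_nt.MeromorphyOfSymmetricPowers.result K θ
      (fun n hn => hmero h n hn 0) h2' with ⟨-, -, h8⟩ | ⟨-, h7⟩ | h6
    · exact Or.inl (h8 fun n τ hn => hmero h n hn τ).2
    · exact Or.inr (Or.inl h7)
    · exact Or.inr (Or.inr h6)

end

end Pool.Agent.Results.MP_c481b3_nt.LocalRankAndTwoMeans
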